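import Pool.Agent.Helper63.P705.NUM.Fun
import Mathlib.Tactic

/-!
# MP_705522_gt: basic lemmas about the kernel functions
-/

namespace Pool.Agent.Helper63.P705

theorem sq_eq {α : Type} (v : ℕ) (f : ℕ → α) : sq v f = f v := by
  cases v <;> rfl

@[simp] theorem lp_zero (f : ℕ → ℕ → ℕ) (a : ℕ) : lp 0 f a = a := rfl

theorem lp_succ (n : ℕ) (f : ℕ → ℕ → ℕ) (a : ℕ) : lp (n + 1) f a = lp n f (f n a) := by
  show sq (f n a) _ = _
  rw [sq_eq]; rfl

theorem lp2_zero {α : Type} (st : ℕ → ℕ → ℕ → (ℕ → ℕ → α) → α) (fin : ℕ → ℕ → α) (a b : ℕ) :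
    lp2 0 st fin a b = fin a b := rfl

theorem lp2_succ {α : Type} (n : ℕ) (st : ℕ → ℕ → ℕ → (ℕ → ℕ → α) → α) (fin : ℕ → ℕ → α)
    (a b : ℕ) : lp2 (n + 1) st fin a b = st n a b (lp2 n st fin) := rfl

theorem lp3_zero {α : Type} (st : ℕ → ℕ → ℕ → ℕ → (ℕ → ℕ → ℕ → α) → α) (fin : ℕ → ℕ → ℕ → α)
    (a b c : ℕ) : lp3 0 st fin a b c = fin a b c := rfl

theorem lp3_succ {α : Type} (n : ℕ) (st : ℕ → ℕ → ℕ → ℕ → (ℕ → ℕ → ℕ → α) → α)
    (fin : ℕ → ℕ → ℕ → α) (a b c : ℕ) : lp3 (n + 1) st fin a b c = st n a b c (lp3 n st fin) := rfl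

theorem cnd_eq {α : Type} (b : Bool) (x y : α) : cnd b x y = if b then x else y := by
  cases b <;> rfl

theorem nmin_eq (a b : ℕ) : nmin a b = min a b := by
  unfold nmin
  rw [cnd_eq]
  by_cases h : a ≤ b
  · rw [if_pos (by rw [Nat.ble_eq]; exact h), min_eq_left h]
  · rw [if_neg (by rw [Nat.ble_eq]; exact h), min_eq_right (by omega)]

theorem nmax_eq (a b : ℕ) : nmax a b = max a b := by
  unfold nmax
  rw [cnd_eq]
  by_cases h : a ≤ b
  · rw [if_pos (by rw [Nat.ble_eq]; exact h), max_eq_right h]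
  · rw [if_neg (by rw [Nat.ble_eq]; exact h), max_eq_left (by omega)]

theorem fld_eq (T w i : ℕ) : fld T w i = T / 2 ^ (w * i) % 2 ^ w := by
  unfold fld
  show Nat.land (T >>> (w * i)) (1 <<< w - 1) = _
  rw [Nat.one_shiftLeft, Nat.shiftRight_eq_div_pow]
  exact Nat.and_two_pow_sub_one_eq_mod _ _

theorem lp_eq_foldl (n : ℕ) (f : ℕ → ℕ → ℕ) (a : ℕ) :
    lp n f a = ((List.range n).reverse).foldl (fun acc i => f i acc) a := by
  induction n generalizing a with
  | zero => rfl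
  | succ n ih =>
    rw [lp_succ, ih, List.range_succ, List.reverse_append]
    rfl

/-- invariant rule for `lp` -/
theorem lp_ind {n : ℕ} {f : ℕ → ℕ → ℕ} (P : ℕ → ℕ → Prop) {a : ℕ} (h0 : P n a)
    (hs : ∀ i acc, i < n → P (i + 1) acc → P i (f i acc)) : P 0 (lp n f a) := by
  induction n generalizing a with
  | zero => exact h0
  | succ n ih =>
    rw [lp_succ]
    exact ih (hs n a (Nat.lt_succ_self n) h0) fun i acc hi => hs i acc (Nat.lt_succ_of_lt hi)

/-- packed lists: `T = ∑_{i<n} x i 2^(w i)` with `x i < 2^w` has the fields `x i` -/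
theorem fld_sum (w n : ℕ) (x : ℕ → ℕ) (hx : ∀ i, i < n → x i < 2 ^ w) (i : ℕ) (hi : i < n) :
    fld (∑ k ∈ Finset.range n, x k * 2 ^ (w * k)) w i = x i := by
  rw [fld_eq]
  have hlow : ∀ m, m ≤ n → ∑ k ∈ Finset.range m, x k * 2 ^ (w * k) < 2 ^ (w * m) := by
    intro m hm
    induction m with
    | zero => simp
    | succ m ih =>
      rw [Finset.sum_range_succ]
      have h1 := ih (by omega)
      have h2 := hx m (by omega)
      calc _ < 2 ^ (w * m) + x m * 2 ^ (w * m) := by omega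
        _ = (x m + 1) * 2 ^ (w * m) := by ring
        _ ≤ 2 ^ w * 2 ^ (w * m) := Nat.mul_le_mul_right _ h2
        _ = 2 ^ (w * (m + 1)) := by rw [← pow_add]; ring_nf
  have hsplit : ∑ k ∈ Finset.range n, x k * 2 ^ (w * k) =
      (∑ k ∈ Finset.range i, x k * 2 ^ (w * k)) +
        2 ^ (w * i) * (x i + 2 ^ w * ∑ k ∈ Finset.range (n - (i + 1)), x (i + 1 + k) * 2 ^ (w * k)) := by
    have h3 : n = (i + 1) + (n - (i + 1)) := by omega
    conv_lhs => rw [h3]
    rw [Finset.sum_range_add, Finset.sum_range_succ, mul_add, add_assoc, Finset.mul_sum, Finset.mul_sum]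
    congr 1
    congr 1
    · ring
    · apply Finset.sum_congr rfl
      intro k _
      rw [show w * (i + 1 + k) = w * i + w + w * k by ring, pow_add, pow_add]
      ring
  rw [hsplit, Nat.add_mul_div_left _ _ (by positivity), Nat.div_eq_of_lt (hlow i hi.le), zero_add,
    Nat.add_mul_mod_self_left, Nat.mod_eq_of_lt (hx i hi)]

end Pool.Agent.Helper63.P705
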