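import Mathlib.Data.Nat.Basic
import Mathlib.Data.List.Basic

/-!
# MP_705522_gt: the numeric kernel (integer arithmetic evaluated by the Lean kernel)

`θ = a/8192`.  `g(x) = Γ(x) 80^(-x) e^80`; only ratios of `g` of degree 0 occur.
`sq v f = f v`; `lp n f a` is the loop `a := f i a` for `i = n-1, …, 0`; everything is strict.
-/

noncomputable section

namespace Pool.Agent.Helper63.P705

/-- strict evaluation: `sq v f = f v` -/
def sq {α : Type} (v : ℕ) (f : ℕ → α) : α :=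
  Nat.rec (motive := fun _ => α) (f 0) (fun m _ => f (Nat.succ m)) v

/-- strict loop: `f i acc` for `i = n-1, …, 0` -/
def lp (n : ℕ) (f : ℕ → ℕ → ℕ) (a : ℕ) : ℕ :=
  Nat.rec (motive := fun _ => ℕ → ℕ) (fun acc => acc) (fun i ih acc => sq (f i acc) ih) n a

/-- loop with two accumulators (continuation passing) -/
def lp2 {α : Type} (n : ℕ) (st : ℕ → ℕ → ℕ → (ℕ → ℕ → α) → α) (fin : ℕ → ℕ → α) (a b : ℕ) : α :=
  Nat.rec (motive := fun _ => ℕ → ℕ → α) fin (fun i ih a b => st i a b ih) n a b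

/-- loop with three accumulators (continuation passing) -/
def lp3 {α : Type} (n : ℕ) (st : ℕ → ℕ → ℕ → ℕ → (ℕ → ℕ → ℕ → α) → α) (fin : ℕ → ℕ → ℕ → α)
    (a b c : ℕ) : α :=
  Nat.rec (motive := fun _ => ℕ → ℕ → ℕ → α) fin (fun i ih a b c => st i a b c ih) n a b c

def cnd {α : Type} (b : Bool) (x y : α) : α := Bool.rec (motive := fun _ => α) y x b

def nmin (a b : ℕ) : ℕ := cnd (Nat.ble a b) a b
def nmax (a b : ℕ) : ℕ := cnd (Nat.ble a b) b a

/-- digit `i` (width `w`) of a packed number -/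
def fld (T w i : ℕ) : ℕ :=
  Nat.land (Nat.shiftRight T (Nat.mul w i)) (Nat.sub (Nat.shiftLeft 1 w) 1)

/-! ### the Gamma function -/

/-- about `2^124 · x · ∑_k 80^k/(x (x+1) … (x+k))`, `x = 1 + r/8192` (Horner, 212 terms) -/
def gser (r : ℕ) : ℕ :=
  lp 212 (fun i s => Nat.add (Nat.shiftLeft 1 124)
    (Nat.div (Nat.mul s 655360) (Nat.add (Nat.mul 8192 (Nat.add i 2)) r))) (Nat.shiftLeft 1 124)

/-- table entry: about `2^8 g(1+r/8192)` -/
def gent (r : ℕ) : ℕ := Nat.shiftRight (Nat.div (Nat.shiftLeft (gser r) 13) (Nat.add 8192 r)) 116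

/-- the entries `r0, …, r0 + n - 1` packed, 128 bits each -/
def gtab (r0 n : ℕ) : ℕ := lp n (fun i T => Nat.add (Nat.shiftLeft T 128) (gent (Nat.add r0 i))) 0

/-! ### moments -/

/-- `∏_{i=1}^m (8192 i + r)` -/
def prodP (m r : ℕ) : ℕ := lp m (fun i acc => Nat.mul acc (Nat.add (Nat.mul 8192 (Nat.succ i)) r)) 1

/-- about `2^8 g(1+y/8192) 655360^⌊y/8192⌋`, from the table `GT` -/
def gval (GT y : ℕ) : ℕ :=
  sq (Nat.land y 8191) fun r => Nat.mul (fld GT 128 r) (prodP (Nat.shiftRight y 13) r)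

/-- packed (128 bits) `2^120 r_j`, `j = 0, …, J`, `r_j = mo_(j+1)/((2j+1) mo_j)` -/
def rpk (GT a J : ℕ) : ℕ :=
  sq (fld GT 128 (Nat.sub 8192 a)) fun W0 => sq (Nat.mul (fld GT 128 a) (Nat.sub 8192 a)) fun W1 =>
  sq (gval GT a) fun c1 =>
  lp2 J (fun i cur R k =>
    sq (Nat.sub J i) fun j => sq (Nat.mul a (Nat.add (Nat.mul 2 j) 1)) fun y2 =>
    sq (gval GT y2) fun nxt =>
    sq (Nat.sub (Nat.shiftRight y2 13) (Nat.shiftRight (Nat.sub y2 (Nat.mul 2 a)) 13)) fun dm =>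
    sq (Nat.div (Nat.shiftLeft (Nat.mul (Nat.mul nxt W0) (cnd (Nat.beq dm 0) 655360 1)) 120)
      (Nat.mul (Nat.mul cur W1) (Nat.add (Nat.mul 2 j) 1))) fun rj =>
    sq (Nat.add R (Nat.shiftLeft rj (Nat.mul 128 j))) fun R' => k nxt R')
    (fun _ R => R) c1 (Nat.shiftLeft 1 120)

/-- packed (160 bits) `2^100 64^j mo_j/(2j)!`, `j ≤ J` -/
def apk (J R : ℕ) : ℕ :=
  lp2 (Nat.sub J 1) (fun i aj A k =>
    sq (Nat.sub (Nat.sub J 1) i) fun j =>
    sq (Nat.shiftRight (Nat.div (Nat.mul (Nat.mul aj 32) (fld R 128 j)) (Nat.succ j)) 120) fun aj' =>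
    sq (Nat.add A (Nat.shiftLeft aj' (Nat.mul 160 (Nat.succ j)))) fun A' => k aj' A')
    (fun _ A => A) (Nat.shiftLeft 32 100) (Nat.add (Nat.shiftLeft 1 100) (Nat.shiftLeft 32 260))

/-! ### block polynomials in `x` -/

/-- Taylor coefficients in `e`, `x = (b + e)/2`, of `∑_{j ≤ J} (-1)^j A_j (x/64)^j`, digits of `1024`
bits modulo `2^18432`, scale `2^(100 + 7 J)` -/
def horn (A b J : ℕ) : ℕ :=
  sq (Nat.add b (Nat.shiftLeft 1 1024)) fun z =>
  sq (Nat.shiftLeft 1 18432) fun TM => sq (Nat.sub TM 1) fun mk =>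
  lp (Nat.succ J) (fun j acc => Nat.land (Nat.add (Nat.shiftLeft (fld A 160 j)
    (Nat.mul 7 (Nat.sub J j))) (Nat.mul (Nat.sub TM acc) z)) mk) 0

/-- half of a digit in every digit -/
def offH : ℕ := lp 18 (fun _ s => Nat.add (Nat.shiftLeft s 1024) (Nat.shiftLeft 1 1023)) 0

/-- `⌊m c / 2^sh⌋ + M` where `e = c + 2^1023` -/
def flo (M e m sh : ℕ) : ℕ :=
  Nat.sub (Nat.add M (Nat.shiftRight (Nat.mul m e) sh)) (Nat.shiftRight (Nat.shiftLeft m 1023) sh)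

/-- `M - ⌊m c / 2^sh⌋` where `e = c + 2^1023` -/
def fln (M e m sh : ℕ) : ℕ :=
  Nat.sub (Nat.add M (Nat.shiftRight (Nat.shiftLeft m 1023) sh)) (Nat.shiftRight (Nat.mul m e) sh)

/-- the three polynomials (for `f0`, `f1`, `f2`) in `d`, `e = d/2^lam`, digits of 216 bits,
scale `2^192`; modulo `2^3888`, at bits `0`, `7776`, `15552` -/
def digs (off acc J lam : ℕ) : ℕ :=
  sq (Nat.add acc off) fun e => sq (Nat.shiftLeft 1 3888) fun M => sq (Nat.sub M 1) fun mk =>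
  sq (Nat.sub (Nat.add 100 (Nat.mul 7 J)) 192) fun base =>
  sq (lp 18 (fun i s => Nat.land (Nat.add (Nat.shiftLeft s 216)
    (flo M (fld e 1024 i) 1 (Nat.add base (Nat.mul lam i)))) mk) 0) fun n0 =>
  sq (lp 17 (fun i s => Nat.land (Nat.add (Nat.shiftLeft s 216)
    (fln M (fld e 1024 (Nat.succ i)) (Nat.mul 4 (Nat.succ i)) (Nat.add base (Nat.mul lam i)))) mk) 0)
    fun n1 =>
  sq (lp 16 (fun i s => Nat.land (Nat.add (Nat.shiftLeft s 216)
    (fln M (fld e 1024 (Nat.add i 2)) (Nat.mul 8 (Nat.mul (Nat.add i 2) (Nat.succ i)))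
      (Nat.add base (Nat.mul lam i)))) mk) 0) fun n2 =>
  Nat.add n0 (Nat.add (Nat.shiftLeft n1 7776) (Nat.shiftLeft n2 15552))

/-- offsets `2^193` in the digits 17 of the three polynomials -/
def offE : ℕ := Nat.add (Nat.shiftLeft 1 3865) (Nat.add (Nat.shiftLeft 1 11641) (Nat.shiftLeft 1 19417))

/-- `2^40 (1 + value)` from the product `p`, value scaled by `2^192` with offset `2^193` -/
def ext (p s : ℕ) : ℕ := Nat.sub (Nat.land (Nat.shiftRight p s) 8796093022207) 1099511627776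

/-- packed powers `∑_m d^m 2^(216 (17-m))` -/
def pwd (d : ℕ) : ℕ :=
  Nat.div (Nat.sub (Nat.shiftLeft 1 3888) (Nat.pow d 18)) (Nat.sub (Nat.shiftLeft 1 216) d)

/-- the points `d = cnt - 1, …, 0` of one block -/
def pts {α : Type} (N offe cnt : ℕ) (T0 T1 T2 : ℕ) (k : ℕ → ℕ → ℕ → α) : α :=
  lp3 cnt (fun d T0 T1 T2 k =>
    sq (Nat.add (Nat.mul N (pwd d)) offe) fun p =>
    sq (Nat.add (Nat.shiftLeft T0 44) (ext p 3824)) fun T0' =>
    sq (Nat.add (Nat.shiftLeft T1 44) (ext p 11600)) fun T1' =>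
    sq (Nat.add (Nat.shiftLeft T2 44) (ext p 19376)) fun T2' =>
    k T0' T1' T2') k T0 T1 T2

/-- one block: `x_b = b/2`, `lam`, `cnt` -/
def blk {α : Type} (A off offe b lam cnt : ℕ) (T0 T1 T2 : ℕ) (k : ℕ → ℕ → ℕ → α) : α :=
  sq (nmin 120 (Nat.add 24 b)) fun J => sq (digs off (horn A b J) J lam) fun N =>
  pts N offe cnt T0 T1 T2 k

/-- all points -/
def tabs {α : Type} (A : ℕ) (k : ℕ → ℕ → ℕ → α) : α :=
  sq offH fun off => sq offE fun offe =>
  lp3 20 (fun i T0 T1 T2 k => sq (Nat.add 48 (Nat.mul 4 i)) fun b =>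
    blk A off offe b 1 (cnd (Nat.beq i 19) 9 8) T0 T1 T2 k)
  (fun T0 T1 T2 =>
    lp3 8 (fun i T0 T1 T2 k => sq (Nat.add 16 (Nat.mul 4 i)) fun b => blk A off offe b 3 32 T0 T1 T2 k)
    (fun T0 T1 T2 =>
      lp3 15 (fun i T0 T1 T2 k => sq (Nat.succ i) fun b => blk A off offe b 5 32 T0 T1 T2 k)
      (fun T0 T1 T2 => blk A off offe 0 8 256 T0 T1 T2 k) T0 T1 T2) T0 T1 T2) 0 0 0

end Pool.Agent.Helper63.P705
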