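import Pool.Agent.Helper63.P705.NUM.Asm
import Pool.Agent.Helper32.P705.N1
import Pool.Agent.Helper5.P705.N2
import Pool.Agent.Helper56.P705.N3
import Pool.Agent.Helper19.P705.N4
import Pool.Agent.Helper93.P705.N5
import Pool.Agent.Helper42.P705.N6
import Pool.Agent.Helper89.P705.N7
import Pool.Agent.Helper79.P705.N8
import Pool.Agent.Helper7.P705.N9
import Pool.Agent.Helper15.P705.N10
import Pool.Agent.Helper49.P705.N11
import Pool.Agent.Helper75.P705.N12
import Pool.Agent.Helper3.P705.N13
import Pool.Agent.Helper8.P705.N14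
import Pool.Agent.Helper77.P705.N15
import Pool.Agent.Helper46.P705.N16

/-!
# MP_705522_gt: the numeric kernel is correct
-/

namespace Pool.Agent.Helper63.P705

theorem num_ok : NumOK :=
  num_of Pool.Agent.Helper32.P705.n1 Pool.Agent.Helper5.P705.n2 Pool.Agent.Helper56.P705.n3
    Pool.Agent.Helper19.P705.n4 Pool.Agent.Helper93.P705.n5 Pool.Agent.Helper42.P705.n6
    Pool.Agent.Helper89.P705.n7 Pool.Agent.Helper79.P705.n8 Pool.Agent.Helper7.P705.n9
    Pool.Agent.Helper15.P705.n10 Pool.Agent.Helper49.P705.n11 Pool.Agent.Helper75.P705.n12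
    Pool.Agent.Helper3.P705.n13 Pool.Agent.Helper8.P705.n14 Pool.Agent.Helper77.P705.n15
    Pool.Agent.Helper46.P705.n16

end Pool.Agent.Helper63.P705
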