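import Pool.Agent.Helper63.P705.NUM.Goals

/-!
# MP_705522_gt: soundness of the numeric kernel (assembly)
-/

namespace Pool.Agent.Helper63.P705

open Pool.Agent.Helper53.PT (mo m3 f0 f1 f2)

/-- Soundness of `tabP, tabS, tabT, momN, m3N, sg2N, gamN`. -/
structure NumOK : Prop where
  tab : ∀ a : ℕ, 2048 ≤ a → a < 4096 → ∀ k : ℕ, k ≤ 1152 →
    |tval (tabP a) k - f0 (a / 8192) (xg k)| ≤ 2⁻¹ ^ 38 ∧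
    |tval (tabS a) k - f1 (a / 8192) (xg k)| ≤ 2⁻¹ ^ 38 ∧
    |tval (tabT a) k - f2 (a / 8192) (xg k)| ≤ 2⁻¹ ^ 38
  mom : ∀ a : ℕ, 2048 ≤ a → a < 4096 → ∀ j : ℕ, 2 ≤ j → j ≤ 4 →
    |(momN a j : ℝ) / 2 ^ 40 - mo (a / 8192) j| ≤ 2⁻¹ ^ 39
  m3 : ∀ a : ℕ, 2048 ≤ a → a < 4096 → |(m3N a : ℝ) / 2 ^ 40 - m3 (a / 8192)| ≤ 2⁻¹ ^ 39
  sg2 : ∀ a : ℕ, 2048 ≤ a → a < 4096 →
    |(sg2N a : ℝ) / 2 ^ 40 - Real.Gamma (1 + a / 8192) * Real.Gamma (1 - a / 8192)| ≤ 2⁻¹ ^ 39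
  gam : ∀ p : ℕ, 4096 ≤ p → p < 65536 →
    |(gamN p : ℝ) / 2 ^ 60 - Real.Gamma (p / 8192)| ≤ 2⁻¹ ^ 50 * Real.Gamma (p / 8192)

theorem num_of (h1 : N1) (h2 : N2) (h3 : N3) (h4 : N4) (h5 : N5) (h6 : N6) (h7 : N7) (h8 : N8)
    (h9 : N9) (h10 : N10) (h11 : N11) (h12 : N12) (h13 : N13) (h14 : N14) (h15 : N15) (h16 : N16) :
    NumOK := by
  have g : ∀ r : ℕ, r < 8192 →
      |(gent r : ℝ) - 256 * gG (1 + r / 8192)| ≤ 2⁻¹ ^ 106 * (256 * gG (1 + r / 8192)) ∧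
      fld GT 128 r = gent r := fun r hr =>
    ⟨(h2 h1 r hr).1, h3 (fun r hr => (h2 h1 r hr).2.2) r hr⟩
  have a5 := h5 h4 g
  have a6 := h6 a5
  have a14 := h14 h4 g (fun a ha hb => (a6 a ha hb).2.2)
  refine ⟨fun a ha hb k hk => ?_, fun a ha hb j => (a14 a ha hb).1 j, h15 h4 g,
    fun a ha hb => (a14 a ha hb).2, h16 h4 g⟩
  exact h13 a (f0 (a / 8192)) (f1 (a / 8192)) (f2 (a / 8192)) (2⁻¹ ^ 38)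
    (h12 h7 h8 h9 h10 h11 a ha hb (a6 a ha hb).1 (a6 a ha hb).2.1) k hk

end Pool.Agent.Helper63.P705
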