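import Pool.Agent.Helper63.P705.NUM.Fun
import Pool.Agent.Helper63.P705.NUM.GT

/-!
# MP_705522_gt: the numeric kernel, the functions used by the checkers (`θ = a/8192`)

`GT` (packed table of `gent r`) must only be used as a constant (never bind it with `sq`).
-/

noncomputable section

namespace Pool.Agent.Helper63.P705

/-- packed (160 bits) coefficients `2^100 64^j mo_j/(2j)!` of `θ = a/8192`, `j ≤ 120` -/
def acf (a : ℕ) : ℕ := sq (rpk GT a 120) fun R => apk 120 R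

/-- the three tables, at bits `0`, `51200`, `102400` -/
def tab (a : ℕ) : ℕ := sq (acf a) fun A => tabs A fun T0 T1 T2 =>
  Nat.add T0 (Nat.add (Nat.shiftLeft T1 51200) (Nat.shiftLeft T2 102400))

/-- field `k` (44 bits) is `⌊2^40 (1 + f0 θ (xg k))⌋`, up to the error `2^-38` -/
def tabP (a : ℕ) : ℕ := Nat.land (tab a) (Nat.sub (Nat.shiftLeft 1 51200) 1)
/-- the same for `f1 θ` -/
def tabS (a : ℕ) : ℕ := Nat.land (Nat.shiftRight (tab a) 51200) (Nat.sub (Nat.shiftLeft 1 51200) 1)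
/-- the same for `f2 θ` -/
def tabT (a : ℕ) : ℕ := Nat.shiftRight (tab a) 102400

/-- `2^40 mo θ j`, `2 ≤ j ≤ 4` -/
def momN (a j : ℕ) : ℕ :=
  Nat.shiftRight (Nat.mul (fld (acf a) 160 j) (cnd (Nat.beq j 2) 24 (cnd (Nat.beq j 3) 720 40320)))
    (Nat.add 60 (Nat.mul 6 j))

/-- `2^40 E|Y|³` -/
def m3N (a : ℕ) : ℕ :=
  sq (fld GT 128 (Nat.mul 2 a)) fun g2 => sq (fld GT 128 (Nat.sub 8192 a)) fun w0 =>
  sq (fld GT 128 a) fun w1 =>
  sq (Nat.div (Nat.shiftLeft (Nat.mul (Nat.mul (Nat.mul g2 g2) w0) 655360) 100)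
    (Nat.mul (Nat.mul (Nat.mul w1 w1) w1) (Nat.sub 8192 a))) fun N =>
  Nat.shiftRight (lp 7 (fun _ s => Nat.shiftRight (Nat.add s (Nat.div N s)) 1) (Nat.shiftLeft 3 49)) 10

/-- `2^40 Γ(1+θ) Γ(1-θ)` -/
def sg2N (a : ℕ) : ℕ :=
  Nat.div (Nat.shiftLeft (Nat.mul (Nat.mul (fld GT 128 a) (fld GT 128 (Nat.sub 8192 a))) 655360) 40)
    (Nat.mul (Nat.sub 8192 a) (Nat.mul (fld GT 128 0) (fld GT 128 0)))

/-- `⌊2^100 80^(1/2^i)⌋`, `i = 1, …, 13` packed (128 bits, field `i`) -/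
def c80 : ℕ :=
  Nat.add (Nat.shiftLeft 0x8f1bbcdcbfa53e0af9ce60302e 128) <|
  Nat.add (Nat.shiftLeft 0x2fd9e5afeeacdc5bb139e76616 256) <|
  Nat.add (Nat.shiftLeft 0x1bab78e4d1420d6a8ba2f26909 384) <|
  Nat.add (Nat.shiftLeft 0x150a7498499e8d0ee95006c02b 512) <|
  Nat.add (Nat.shiftLeft 0x12591e513ca0ce57ce9160e457 640) <|
  Nat.add (Nat.shiftLeft 0x11224611feb8cd1f03c897ab2c 768) <|
  Nat.add (Nat.shiftLeft 0x108ea71a8b2c1c721f3297d1ac 896) <|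
  Nat.add (Nat.shiftLeft 0x1046b74753cef733a074fec9fa 1024) <|
  Nat.add (Nat.shiftLeft 0x102334e797d4220323c77a2c6f 1152) <|
  Nat.add (Nat.shiftLeft 0x101190cf6044264cf422c86115 1280) <|
  Nat.add (Nat.shiftLeft 0x1008c5ffe70fbfe38e3adabe02 1408) <|
  Nat.add (Nat.shiftLeft 0x100462662b69f556746c9fc5cf 1536) <|
  Nat.shiftLeft 0x1002310ca8f112247d5ef21b63 1664

/-- about `2^100 80^(r/8192)`, `r < 8192` -/
def powX (r : ℕ) : ℕ :=
  lp 13 (fun i acc => cnd (Nat.beq (Nat.land (Nat.shiftRight r i) 1) 0) acc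
    (Nat.shiftRight (Nat.mul acc (fld c80 128 (Nat.sub 13 i))) 100)) (Nat.shiftLeft 1 100)

/-- about `2^60 Γ(p/8192)`, `4096 ≤ p < 65536` -/
def gamN (p : ℕ) : ℕ :=
  sq (Nat.shiftRight p 13) fun m => sq (Nat.land p 8191) fun r =>
  sq (Nat.div (Nat.mul (fld GT 128 r) (powX r)) (fld GT 128 0)) fun v =>
  Nat.shiftRight (cnd (Nat.beq m 0) (Nat.div (Nat.shiftLeft v 13) r)
    (Nat.shiftRight (Nat.mul v (prodP (Nat.sub m 1) r)) (Nat.mul 13 (Nat.sub m 1)))) 40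

end Pool.Agent.Helper63.P705
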