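import Pool.Agent.Helper63.P705.NUM.Lem
import Pool.Agent.Helper63.P705.NUM.Tab
import Pool.Agent.Helper53.PT.A

/-!
# MP_705522_gt: soundness of the numeric kernel (goals)

`Fun.lean`, `Tab.lean`: the functions; `Lem.lean`: `sq_eq, lp_succ, lp2_succ, lp3_succ, cnd_eq, nmin_eq,
fld_eq, lp_ind, fld_sum`.  `Nat.shiftLeft a k = a * 2^k`, `Nat.shiftRight a k = a / 2^k`,
`Nat.land a (2^k - 1) = a % 2^k`.  Do NOT unfold `GT` (1 Mbit literal).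
`Helper53.PT.A`: facts about `mo θ j`, `f0 θ`, `f1 θ`, `f2 θ` (`aMO`, `mo_mono`, `aLAW`, ...).
-/

namespace Pool.Agent.Helper63.P705

open Pool.Agent.Helper53.PT (mo m3 f0 f1 f2)

/-- `g(x) = Γ(x) 80^(-x) e^80`, so `g(x+1) = (x/80) g(x)`. -/
noncomputable def gG (x : ℝ) : ℝ := Real.Gamma x * (80 : ℝ) ^ (-x) * Real.exp 80

/-- `α_j = mo_j/(2j)!`, the coefficient of `(-x)^j` in `f0` -/
noncomputable def al (θ : ℝ) (j : ℕ) : ℝ := mo θ j / ((2 * j).factorial : ℝ)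

/-- the grid -/
noncomputable def xg (k : ℕ) : ℝ :=
  if k < 256 then (k : ℝ) / 512 else if k < 736 then 1 / 2 + ((k : ℝ) - 256) / 64
  else if k < 992 then 8 + ((k : ℝ) - 736) / 16 else 24 + ((k : ℝ) - 992) / 4

/-- value of field `k` (44 bits) of a table, minus one -/
noncomputable def tval (T k : ℕ) : ℝ := ((T / 2 ^ (44 * k) % 2 ^ 44 : ℕ) : ℝ) / 2 ^ 40 - 1

/-! ## The Gamma table -/

/-- (N1) series of the incomplete Gamma function.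
`∫_0^80 t^(x-1) e^(-t) dt = 80^x e^(-80) ∑_{k<m} 80^k/∏_{i≤k}(x+i) + (∏_{i<m}(x+i))⁻¹ ∫_0^80 t^(x+m-1)e^(-t)dt`
(integration by parts, induction on `m`).  With `m = 213` the last term is at most
`80^(x+213) e^(-80)·(1/(x+213))·(…)`: use `∫_0^80 t^(x+212) e^(-t) ≤ 80^(x+212)·e^(-80)·80/(x+212-80)`
(the integrand is increasing on `[0,80]`, more precisely `t^(x+212)e^(-t) ≤ 80^(x+212)e^(-80)(t/80)^(132)`),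
so it is at most `2^(-112) Γ(x)` (`80^213/214!·80/132 ≤ 2^(-113) e^80/80·…`; check at `x = 1` and `x = 2` and use
that `(x+i)` is increasing; `Γ(x) ≥ 0.88` on `[1,2]`, or use `Γ(x) ≥ ∫_1^2 t^(x-1)e^(-t)dt ≥ .23`).
`∫_80^∞ t^(x-1)e^(-t)dt ≤ ∫_80^∞ t e^(-t) dt = 81 e^(-80)` for `x ≤ 2`, which is at most
`2^(-108) · Γ(x)` as soon as `Γ(x) ≥ 81 e^(-80) 2^108 = .4735…`.  (`Γ(x) ≥ .5` on `[1,2]`: log-convexity,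
`Real.Gamma` is convex, `Γ(1) = Γ(2) = 1`, `Γ(3) = 2` gives `Γ(x) ≥ 2·1 - Γ(4-x)`…; any proof of
`Γ ≥ 1/2` on `[1,2]`, e.g. `∫_0^∞ t^(x-1)e^(-t) ≥ ∫_0^1 t e^(-t) + ∫_1^∞ e^(-t) = 1 - 2/e + 1/e = .63`.) -/
def N1 : Prop := ∀ x : ℝ, 1 ≤ x → x ≤ 2 →
  1 / 2 ≤ Real.Gamma x ∧ Real.Gamma x ≤ 1 ∧
  |gG x - ∑ k ∈ Finset.range 213, (80 : ℝ) ^ k / ∏ i ∈ Finset.range (k + 1), (x + i)| ≤ 2⁻¹ ^ 107 * gG x

/-- (N2) rounding in `gser`, `gent`.  `s_212 = 1`, `s_(i) = 1 + 80 s_(i+1)/(x+i+1)` (`x = 1+r/8192`),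
`i = 211, …, 0`; `gser r` is `2^124 s_0` up to floors: the error `e_i` of step `i` satisfies
`e_i ≤ 80 e_(i+1)/(x+i+1) + 1`, `s_i ≥ 80 s_(i+1)/(x+i+1)`, so `e_i/s_i ≤ e_(i+1)/s_(i+1) + 1`
(`s_i ≥ 1`): relative error `≤ 213·2^(-124)`.  `s_0/x = ∑_{k ≤ 212} 80^k/∏_{i≤k}(x+i)`.
`gent r = ⌊2^8 s_0/x⌋` up to this error; `256 gG(x) ≥ 256·.5·80^(-2)e^80 ≥ 2^109`, so all errors together
are at most `(2^(-107) + 2^(-116) + 2^(-109))`·value `≤ 2^(-106)`·value.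
Upper bound: `256 gG(x) ≤ 256·e^80/80 < 2^118`. -/
def N2 : Prop := N1 → ∀ r : ℕ, r < 8192 →
  |(gent r : ℝ) - 256 * gG (1 + r / 8192)| ≤ 2⁻¹ ^ 106 * (256 * gG (1 + r / 8192)) ∧
  2 ^ 108 ≤ gent r ∧ gent r < 2 ^ 119

/-- (N3) the table.  Kernel computation: `gtab (512 i) 512 = GTi` (`by decide +kernel`, 16 modules or
4 modules with 4 theorems each, every one takes about 4 s), then `fld_sum`-type lemma: `gtab r0 n =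
∑_{i<n} gent (r0+i) 2^(128 i)`, and `GT = ∑ GTi 2^(65536 i)`. (`gent r < 2^119` from `N2`.) -/
def N3 : Prop := (∀ r : ℕ, r < 8192 → gent r < 2 ^ 119) → ∀ r : ℕ, r < 8192 → fld GT 128 r = gent r

/-! ## The moments -/

/-- (N4) ratios of moments by `gG` (`Real.Gamma_add_one`; the powers of `80` cancel), the product
formula for `gval`.  `gG(x+1) = (x/80) gG(x)`, hence
`gG(1+ρ+m) 655360^m = gG(1+ρ) ∏_{i=1}^m (8192 i + 8192 ρ)`. -/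
def N4 : Prop :=
  (∀ x : ℝ, 0 < x → gG (x + 1) = x / 80 * gG x ∧ 0 < gG x) ∧
  (∀ θ : ℝ, 0 < θ → θ < 1 / 2 → ∀ j : ℕ, mo θ (j + 1) / ((2 * j + 1) * mo θ j) =
    gG (1 + (2 * j + 1) * θ) * gG (1 - θ) / (gG (1 + (2 * j - 1) * θ) * gG (1 + θ) * (2 * j + 1))) ∧
  (∀ m r : ℕ, (prodP m r : ℝ) = ∏ i ∈ Finset.range m, (8192 * ((i : ℝ) + 1) + r)) ∧
  (∀ m r : ℕ, gG (1 + (8192 * m + r) / 8192) * 655360 ^ m = gG (1 + r / 8192) * prodP m r)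

/-- `r_j = mo_(j+1)/((2j+1) mo_j)` -/
noncomputable def rj (θ : ℝ) (j : ℕ) : ℝ := mo θ (j + 1) / ((2 * j + 1) * mo θ j)

/-- (N5) the packed ratios.  By `N2, N3`: `gval GT y = 256 gG(1+y/8192) 655360^(y/8192)` up to the
relative error `2^(-106)`.  `gG(1-θ) = gG(2-θ)·80/(1-θ)`: with `W0 = gent(8192-a)`,
`W1 = gent(a)(8192-a)`: `gG(1-θ)/gG(1+θ) = 655360 W0/W1`.  So `r_j = nxt W0 655360^(1-dm)/(cur W1 (2j+1))`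
up to relative error `≤ 2^(-103.9)`, `dm = ⌊(2j+1)a/8192⌋ - ⌊(2j-1)a/8192⌋ ∈ {0,1}`; then the floor.
`0 < r_j ≤ 1` (`aMO`: `mo (j+1)/mo j` is nondecreasing in `θ` and `= 2j+1` at `θ = 1/2`). The fields do
not overlap since `R_j < 2^121`. -/
def N5 : Prop := N4 → (∀ r : ℕ, r < 8192 →
    |(gent r : ℝ) - 256 * gG (1 + r / 8192)| ≤ 2⁻¹ ^ 106 * (256 * gG (1 + r / 8192)) ∧
    fld GT 128 r = gent r) →
  ∀ a : ℕ, 2048 ≤ a → a < 4096 →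
  (∀ j, 0 < rj (a / 8192) j ∧ rj (a / 8192) j ≤ 1) ∧
  fld (rpk GT a 120) 128 0 = 2 ^ 120 ∧
  ∀ j : ℕ, 1 ≤ j → j ≤ 120 → fld (rpk GT a 120) 128 j < 2 ^ 121 ∧
    |(fld (rpk GT a 120) 128 j : ℝ) - 2 ^ 120 * rj (a / 8192) j| ≤
      2⁻¹ ^ 103 * (2 ^ 120 * rj (a / 8192) j) + 1

/-- `T_j = 2^100 64^j mo_j/(2j)!` -/
noncomputable def Tj (θ : ℝ) (j : ℕ) : ℝ := 2 ^ 100 * 64 ^ j * al θ j

/-- (N6) the packed moments.  `T_0 = 2^100`, `T_1 = 32·2^100` exactly, `T_(j+1) = T_j·32 r_j/(j+1)`.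
With `e_j = |a_j - T_j|`, `a_(j+1) = ⌊a_j·32·R_j/((j+1) 2^120)⌋` (`Nat.div_div_eq_div_mul`):
`e_(j+1) ≤ (32/(j+1))(R_j/2^120) e_j + T_j (32/(j+1))|R_j/2^120 - r_j| + 1`.  `mo_(j+1)/mo_j ≥ mo_1/mo_0 = 1`
(Cauchy–Schwarz, `aLAW`: `mo_j² ≤ mo_(j-1) mo_(j+1)`), so `r_j ≥ 1/(2j+1) ≥ 2^(-8)` and
`|R_j/2^120 - r_j| ≤ (2^(-103) + 2^(-112)) r_j`.  Split `e_j ≤ T_j η_j + h_j` with
`η_(j+1) = (1 + 2^(-102)) η_j + 2^(-102.9)`, so `η_j ≤ j 2^(-102)`, and `h_(j+1) = (32/(j+1))(1+2^(-102)) h_j + 1`,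
`h_1 = 0`, so `h_j ≤ ∑_{m≤j} 33^m/m!`-type sums: `∑_j h_j ≤ 121 e^(32.1)`.  `∑_j T_j ≤ 2^100 e^32`
(`T_j ≤ 2^100 32^j/j!`).  Total `≤ 2^100·e^32·120·2^(-102) + 121 e^(32.1) ≤ 2^57` (`e^32 ≤ 2^46.2`). -/
def N6 : Prop := (∀ a : ℕ, 2048 ≤ a → a < 4096 →
    (∀ j, 0 < rj (a / 8192) j ∧ rj (a / 8192) j ≤ 1) ∧
    fld (rpk GT a 120) 128 0 = 2 ^ 120 ∧
    ∀ j : ℕ, 1 ≤ j → j ≤ 120 → fld (rpk GT a 120) 128 j < 2 ^ 121 ∧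
      |(fld (rpk GT a 120) 128 j : ℝ) - 2 ^ 120 * rj (a / 8192) j| ≤
        2⁻¹ ^ 103 * (2 ^ 120 * rj (a / 8192) j) + 1) →
  ∀ a : ℕ, 2048 ≤ a → a < 4096 →
  (∀ j, 0 < al (a / 8192) j ∧ al (a / 8192) j ≤ 1 / (2 ^ j * (j.factorial : ℝ))) ∧
  ∑ j ∈ Finset.range 121, |(fld (acf a) 160 j : ℝ) - Tj (a / 8192) j| ≤ 2 ^ 57 ∧
  (∀ j ≤ 4, |(fld (acf a) 160 j : ℝ) - Tj (a / 8192) j| ≤ 2⁻¹ ^ 95 * Tj (a / 8192) j)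

/-! ## Polynomials: exact algebra -/

/-- integer Taylor coefficients: `∑_j (-1)^j A_j 2^(7(J-j)) C(j,i) b^(j-i)` -/
def cI (A : ℕ → ℕ) (b J i : ℕ) : ℤ :=
  ∑ j ∈ Finset.range (J + 1), (-1) ^ j * (A j : ℤ) * 2 ^ (7 * (J - j)) * (j.choose i : ℤ) * (b : ℤ) ^ (j - i)

/-- (N7) Horner in `ℤ/2^18432`: `acc ↦ A_j 2^(7(J-j)) - z·acc`, `z = b + 2^1024`, gives
`∑_j (-1)^j A_j 2^(7(J-j)) (b + 2^1024)^j`; binomial theorem; powers `2^(1024 i)`, `i ≥ 18`, vanish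
modulo `2^18432`. -/
def N7 : Prop := ∀ A b J : ℕ, J ≤ 120 →
  (horn A b J : ℤ) = (∑ i ∈ Finset.range 18, cI (fun j => fld A 160 j) b J i * 2 ^ (1024 * i)) % 2 ^ 18432

/-- the rounded coefficients of the polynomials for `f0`, `f1`, `f2` -/
def nI (c : ℕ → ℤ) (J lam t i : ℕ) : ℤ :=
  if t = 0 then c i / 2 ^ (7 * J + 100 - 192 + lam * i)
  else if t = 1 then -(4 * ((i : ℤ) + 1) * c (i + 1) / 2 ^ (7 * J + 100 - 192 + lam * i))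
  else -(8 * (((i : ℤ) + 2) * (i + 1)) * c (i + 2) / 2 ^ (7 * J + 100 - 192 + lam * i))

/-- (N8) extraction of the digits.  `acc + offH ≡ ∑ (c_i + 2^1023) 2^(1024 i)` with digits in
`[0,2^1024)` (`acc < 2^18432`, so `acc + offH` equals this sum, possibly plus `2^18432`, which does not
change the fields `0, …, 17`).  `⌊m(c + 2^1023)/2^sh⌋ - m 2^1023/2^sh = ⌊m c/2^sh⌋` because
`2^sh ∣ m 2^1023` (`sh ≤ 7·120 + 100 - 192 + 8·17 = 884 ≤ 1023`); integer division `/` is the floor. -/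
def N8 : Prop := ∀ (c : ℕ → ℤ) (acc J lam : ℕ), 24 ≤ J → J ≤ 120 → lam ≤ 8 →
  (∀ i < 18, |c i| < 2 ^ 1023) →
  (acc : ℤ) = (∑ i ∈ Finset.range 18, c i * 2 ^ (1024 * i)) % 2 ^ 18432 →
  (digs offH acc J lam : ℤ) = ∑ t ∈ Finset.range 3,
    ((∑ i ∈ Finset.range (18 - t), nI c J lam t i * 2 ^ (216 * i)) % 2 ^ 3888) * 2 ^ (7776 * t)

/-- (N9) evaluation at one point.  `pwd d = ∑_{m<18} d^m 2^(216(17-m))` (geometric sum, exact division).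
`N = ∑_t N_t 2^(7776 t)`, `N_t < 2^3888`, `N_t pwd d < 2^7561`: no overlap between different `t`
(also after adding the offsets `2^(3865 + 7776 t)`, `3865 = 216·17 + 193`).  Modulo `2^3888`:
`N_t pwd d ≡ ∑_k L_k 2^(216 k)`, `L_k = ∑_{i≤k} n_i d^(17-k+i)`, `L_17 = V_t`;
`|L_k| ≤ d^(17-k)·18·2^196`, so `|∑_{k<17} L_k 2^(216 k)| < 2^(216·17)`.  With `|V_t| < 2^193` the number
`V_t 2^3672 + ∑_{k<17} … + 2^3865` lies in `(0, 2^3888)`; shift by `3824 = 3672 + 152`. -/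
def N9 : Prop := ∀ (n : ℕ → ℕ → ℤ) (N d : ℕ), d ≤ 255 →
  (∀ t < 3, ∀ i < 18, |n t i| * (d : ℤ) ^ i ≤ 2 ^ 196) →
  (∀ t < 3, |∑ i ∈ Finset.range 18, n t i * (d : ℤ) ^ i| < 2 ^ 193) →
  (N : ℤ) = ∑ t ∈ Finset.range 3,
    ((∑ i ∈ Finset.range 18, n t i * 2 ^ (216 * i)) % 2 ^ 3888) * 2 ^ (7776 * t) →
  ∀ t < 3, |((Nat.shiftRight (Nat.add (Nat.mul N (pwd d)) offE) (3824 + 7776 * t) % 2 ^ 43 : ℕ) : ℝ) -
    ((∑ i ∈ Finset.range 18, n t i * (d : ℤ) ^ i : ℤ) + 2 ^ 193 : ℝ) / 2 ^ 152| ≤ 1 + 2⁻¹ ^ 100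

/-! ## Analysis: Taylor polynomials -/

/-- exact Taylor coefficients of the truncated series at `x_b` -/
noncomputable def cT (θ xb : ℝ) (J i : ℕ) : ℝ :=
  ∑ j ∈ Finset.range (J + 1), (-1) ^ j * (j.choose i : ℝ) * al θ j * xb ^ (j - i)

/-- (N10) bound of all derivatives.  `f0 θ x = E cos(√x Y)` (`aLAW`), `c(v) = cos √v = ∑ (-1)^j v^j/(2j)!`,
`|c^(m)(v)| ≤ m!/(2m)!` for `v ≥ 0` (`c' = -sinc(√v)/2 = -(1/2)∫_0^1 c(s²v) ds`, so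
`c^(m)(v) = (-1/2)^m·∫…` iterated: `c^(m+1)(v) = -(1/2)∫_0^1 s^(2m) c^(m)(s²v) ds`, and
`(m+1)!/(2m+2)! = (1/2)(1/(2m+1)) m!/(2m)!`).  Then differentiate under the expectation
(`|·| ≤ Y^(2m) m!/(2m)!`, moments finite), or use the power series for the coefficients.  Statement: the
`m`-th derivative of `f0 θ` (which is entire, termwise differentiable) is bounded by
`m! al θ m ≤ 1/2^m` on `[0,∞)`. -/
def N10 : Prop := ∀ θ : ℝ, 0 < θ → θ < 1 / 2 →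
  (∀ n : ℕ, ContDiff ℝ n (f0 θ)) ∧
  (∀ (m : ℕ) (x : ℝ), iteratedDeriv m (f0 θ) x =
    ∑' j : ℕ, (-1) ^ (j + m) * (((j + m).factorial : ℝ) / (j.factorial : ℝ)) * al θ (j + m) * x ^ j) ∧
  (∀ (m : ℕ) (x : ℝ), 0 ≤ x → |iteratedDeriv m (f0 θ) x| ≤ 1 / 2 ^ m)

/-- (N11) Taylor with remainder, truncation of the series.  `w = x - xb`.  For `t = 0, 1, 2` the `t`-th
derivative `f0^(t)` has Taylor remainder `≤ (1/2^18) w^(18-t)/(18-t)!` after the terms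
`i < 18 - t`; the coefficient `f0^(i)(xb)/i!` differs from `cT θ xb J i` by at most
`∑_{j>J} C(j,i) α_j xb^(j-i)`, and `∑_i i(i-1)…(i-t+1) w^(i-t) ∑_{j>J} C(j,i) α_j xb^(j-i) ≤
∑_{j>J} j(j-1)…(j-t+1) α_j (xb+w)^(j-t)` (binomial theorem, differentiated `t` times)
`≤ (1/2^t)·∑_{j>J} ((xb+w)/2)^(j-t)/(j-t)!`.  `f1 = -2 f0'`, `f2 = f1' = -2 f0''`. -/
def N11 : Prop := N10 → ∀ θ : ℝ, 0 < θ → θ < 1 / 2 → (∀ j, 0 < al θ j ∧ al θ j ≤ 1 / (2 ^ j * (j.factorial : ℝ))) →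
  ∀ (xb w : ℝ) (J : ℕ), 0 ≤ xb → 0 ≤ w → w ≤ 2 → 24 ≤ J → xb + w ≤ J + 1 →
  (((xb + w) / 2) ^ (J - 1) / ((J - 1).factorial : ℝ) ≤ 2⁻¹ ^ 50) →
  |f0 θ (xb + w) - ∑ i ∈ Finset.range 18, cT θ xb J i * w ^ i| ≤ 2⁻¹ ^ 43 ∧
  |f1 θ (xb + w) - (-2) * ∑ i ∈ Finset.range 17, ((i : ℝ) + 1) * cT θ xb J (i + 1) * w ^ i| ≤ 2⁻¹ ^ 43 ∧
  |f2 θ (xb + w) - (-2) * ∑ i ∈ Finset.range 16, ((i : ℝ) + 2) * (i + 1) * cT θ xb J (i + 2) * w ^ i| ≤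
    2⁻¹ ^ 43

/-- the blocks: `x_b = b/2`, step `2^(-lam)/2`, number of points -/
def IsBlk (b lam cnt : ℕ) : Prop :=
  (b = 0 ∧ lam = 8 ∧ cnt = 256) ∨ (1 ≤ b ∧ b ≤ 15 ∧ lam = 5 ∧ cnt = 32) ∨
  (∃ i, i < 8 ∧ b = 16 + 4 * i ∧ lam = 3 ∧ cnt = 32) ∨ (∃ i, i < 20 ∧ b = 48 + 4 * i ∧ lam = 1 ∧
    cnt = if i = 19 then 9 else 8)

/-- (N12) one block (assembly).  `A_j = fld (acf a) 160 j`, `c_i = cI A b J i`, `J = min 120 (24+b)`,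
`x_b = b/2`, `e = d/2^lam`, `x = (b + e)/2 ≤ 64`.
`c_i/2^(100+7J) = ∑_j (-1)^j (A_j/(2^100 64^j)) C(j,i) (b/2)^(j-i)·2^(-i)` (`64 = 2·32`, `128^j`): so with
`A_j = T_j + err_j` one gets `cT θ x_b J i/2^i` plus an error, and
`∑_i e^i |error_i| ≤ 2^(-100) ∑_j |err_j| ((b+e)/128)^j ≤ 2^(57-100)` (`b + e ≤ 128`); for `t = 1`, `2` the factors
are `4·j/128` and `8 j(j-1)/128²`, at most `4` and `8`: errors `≤ 2^(-41)`, `2^(-40)`.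
`|c_i| < 2^1023`: `|c_i| ≤ 2^(100+7J)(2 e^(x_b/2) + 2^(-43)…)`.  `|n_t,i| d^i ≤ 2^196`:
`|c_i| e^i/2^(100+7J) ≤ |cT| w^i + 2^(-43)`, `|cT θ x_b J i| ≤ 1/(2^i i!) + 2^(-50)` (`N10`, `N11`'s truncation),
`w = e/2 ≤ 2`.  Floors: `∑_i d^i 2^(-192) ≤ 2^(-50)`.  Then `N9`, `N11`:
`|V_t/2^192 - f_t θ x| ≤ 2^(-39.5)` for `t = 2` (`2^(-43) + 2^(-40) + …`), and the field adds `2^(-40)(1+…)`:
total `< 2^(-38.4)`.  `ext p s = (p/2^s % 2^43) - 2^40` with truncated subtraction: since `f_t ≥ -1` (`aBD`) the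
truncation at `-1` can only reduce the error. The hypothesis `((xb+w)/2)^(J-1)/(J-1)! ≤ 2^(-50)` of `N11`: finitely many `b` (monotone in
`w`): `b = 0: (1/4)^23/23!`; `b ≤ 15`: `y = (b+1)/4`, `J = 24+b`; `b = 16+4i`: `y = b/4+1`; the worst is `b = 124`,
`y = 32`, `J = 120`: `32^119/119! = 2^(-57.9)`.  -/
def N12 : Prop := N7 → N8 → N9 → N10 → N11 →
  ∀ a : ℕ, 2048 ≤ a → a < 4096 →
  (∀ j, 0 < al (a / 8192) j ∧ al (a / 8192) j ≤ 1 / (2 ^ j * (j.factorial : ℝ))) →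
  ∑ j ∈ Finset.range 121, |(fld (acf a) 160 j : ℝ) - Tj (a / 8192) j| ≤ 2 ^ 57 →
  ∀ b lam cnt d : ℕ, IsBlk b lam cnt → d < cnt → ∀ N : ℕ,
  N = digs offH (horn (acf a) b (nmin 120 (Nat.add 24 b))) (nmin 120 (Nat.add 24 b)) lam →
  let p := Nat.add (Nat.mul N (pwd d)) offE
  let x : ℝ := (b + d / 2 ^ lam) / 2
  |(ext p 3824 : ℝ) / 2 ^ 40 - 1 - f0 (a / 8192) x| ≤ 2⁻¹ ^ 38 ∧
  |(ext p 11600 : ℝ) / 2 ^ 40 - 1 - f1 (a / 8192) x| ≤ 2⁻¹ ^ 38 ∧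
  |(ext p 19376 : ℝ) / 2 ^ 40 - 1 - f2 (a / 8192) x| ≤ 2⁻¹ ^ 38

/-- (N13) structure of `tabs` (pure bookkeeping).  `pts N offe cnt T0 T1 T2 k = k T0' T1' T2'` with
`T0' = T0·2^(44 cnt) + ∑_{d<cnt} v_d 2^(44 d)` etc. (loop from `d = cnt-1` down to `0`), fields `ext _ _ < 2^43`.  The
blocks are processed from the last to the first, so field `k` of the table is the value at the point
`k - k0(b)` of the block which contains `k`: `k0 = 0` (`b = 0`), `256 + 32(b-1)`, `736 + 32 i`, `992 + 8 i`,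
and `xg k = (b + d/2^lam)/2`. -/
def N13 : Prop := ∀ (a : ℕ) (f g h : ℝ → ℝ) (ε : ℝ),
  (∀ b lam cnt d : ℕ, IsBlk b lam cnt → d < cnt → ∀ N : ℕ,
    N = digs offH (horn (acf a) b (nmin 120 (Nat.add 24 b))) (nmin 120 (Nat.add 24 b)) lam →
    let p := Nat.add (Nat.mul N (pwd d)) offE
    let x : ℝ := (b + d / 2 ^ lam) / 2
    |(ext p 3824 : ℝ) / 2 ^ 40 - 1 - f x| ≤ ε ∧
    |(ext p 11600 : ℝ) / 2 ^ 40 - 1 - g x| ≤ ε ∧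
    |(ext p 19376 : ℝ) / 2 ^ 40 - 1 - h x| ≤ ε) →
  ∀ k : ℕ, k ≤ 1152 →
    |tval (tabP a) k - f (xg k)| ≤ ε ∧ |tval (tabS a) k - g (xg k)| ≤ ε ∧ |tval (tabT a) k - h (xg k)| ≤ ε

/-! ## The other functions -/

/-- (N14) moments and `sg²`.  `momN`: `mo_j = T_j (2j)!/(2^100 64^j)`, so `momN a j ≈ 2^40 mo_j`, relative error
`2^(-95)`, floor `1`.  `sg2N`: `Γ(1+θ)Γ(1-θ) = gG(1+θ)gG(1-θ)/gG(1)²` (powers of `80` and `e^80` cancel),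
`gG(1-θ) = gG(2-θ)·80/(1-θ)`. -/
def N14 : Prop := N4 → (∀ r : ℕ, r < 8192 →
    |(gent r : ℝ) - 256 * gG (1 + r / 8192)| ≤ 2⁻¹ ^ 106 * (256 * gG (1 + r / 8192)) ∧
    fld GT 128 r = gent r) →
  (∀ a : ℕ, 2048 ≤ a → a < 4096 → ∀ j ≤ 4,
    |(fld (acf a) 160 j : ℝ) - Tj (a / 8192) j| ≤ 2⁻¹ ^ 95 * Tj (a / 8192) j) →
  ∀ a : ℕ, 2048 ≤ a → a < 4096 →
  (∀ j : ℕ, 2 ≤ j → j ≤ 4 → |(momN a j : ℝ) / 2 ^ 40 - mo (a / 8192) j| ≤ 2⁻¹ ^ 39) ∧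
  |(sg2N a : ℝ) / 2 ^ 40 - Real.Gamma (1 + a / 8192) * Real.Gamma (1 - a / 8192)| ≤ 2⁻¹ ^ 39

/-- (N15) third absolute moment.  `m3² = gG(1+2θ)² gG(1-θ)/gG(1+θ)³` (exponents of `80`: `2(1+2θ) + (1-θ) - 3(1+θ) = 0`,
of `e^80`: `2 + 1 - 3 = 0`), `gG(1-θ) = gG(2-θ) 80/(1-θ)`; `N ≈ 2^100 m3²`, `1 ≤ m3 ≤ 2` (Cauchy–Schwarz:
`m3 ≤ √(mo 1 mo 2) ≤ √3`; `m3 ≥ (E Y²)^(3/2) = 1`).  Newton: `s ↦ (s + N/s)/2` (floors) from `3·2^49`, `7` steps: if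
`|s - √N| ≤ η √N` then the next one satisfies `0 ≤ s' - √N + 1`, `s' - √N ≤ η²√N·(…)`: `η = 1/2, 1/8·…, …`: after
`7` steps `|s - √N| ≤ 3`. -/
def N15 : Prop := N4 → (∀ r : ℕ, r < 8192 →
    |(gent r : ℝ) - 256 * gG (1 + r / 8192)| ≤ 2⁻¹ ^ 106 * (256 * gG (1 + r / 8192)) ∧
    fld GT 128 r = gent r) →
  ∀ a : ℕ, 2048 ≤ a → a < 4096 → |(m3N a : ℝ) / 2 ^ 40 - m3 (a / 8192)| ≤ 2⁻¹ ^ 39

/-- (N16) Gamma values.  `powX r`: the constants `c_i = ⌊2^100 80^(1/2^i)⌋` satisfy `c_i² ≤ 2^100 (c_(i-1)+1)` and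
`2^100 c_(i-1) ≤ (c_i+1)²` (`c_0 = 80·2^100`; numerical check by `norm_num`/`decide`), so by induction
`|c_i - 2^100 80^(1/2^i)| ≤ 2` (the square root halves the error of `c_(i-1) ± 1`).
`r = ∑ bit_i 2^i`, `80^(r/8192) = ∏ (80^(1/2^(13-i)))^(bit_i)`: relative error of `powX r` is `≤ 13·2^(-98)`.
`Γ(1+ρ) = gG(1+ρ)/gG(1)·80^ρ`, then the functional equation.  Relative error `≤ 2^(-50)` (the last shift by
`40` leaves `2^60 Γ ≥ 2^59.8`). -/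
def N16 : Prop := N4 → (∀ r : ℕ, r < 8192 →
    |(gent r : ℝ) - 256 * gG (1 + r / 8192)| ≤ 2⁻¹ ^ 106 * (256 * gG (1 + r / 8192)) ∧
    fld GT 128 r = gent r) →
  ∀ p : ℕ, 4096 ≤ p → p < 65536 →
  |(gamN p : ℝ) / 2 ^ 60 - Real.Gamma (p / 8192)| ≤ 2⁻¹ ^ 50 * Real.Gamma (p / 8192)

end Pool.Agent.Helper63.P705
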